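import Pool.Agent.Work.MP_bc8e1e_an.Main

set_option autoImplicit false

open MeasureTheory

namespace Pool.Agent.Results.MP_bc8e1e_an.FrostmanNearOne

/-- For EVERY `l` in `(1 - exp (-200), 1)` (no exceptional set), the Bernoulli convolution `μ` with
parameter `l` satisfies `μ(B(x,r)) ≤ 12 √(1-l) r ^ (1 - δ)` for all `x` and all `0 < r ≤ 1`, where
`δ = (1-l) ^ (1 / (7 (1-l)))`. -/
theorem result :
    ∀ l : ℝ, 1 - Real.exp (-200) < l → l < 1 →
      ∀ μ : Measure ℝ, IsProbabilityMeasure μ →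
        μ = (1/2 : ENNReal) • μ.map (fun x : ℝ => l * x + 1)
            + (1/2 : ENNReal) • μ.map (fun x : ℝ => l * x - 1) →
        ∀ x r : ℝ, 0 < r → r ≤ 1 →
          (μ (Metric.closedBall x r)).toReal
            ≤ 12 * Real.sqrt (1 - l) * r ^ (1 - (1 - l) ^ (1 / (7 * (1 - l)))) := by
  intro l hl0 hl1 μ hμ h x r hr hr1
  exact Pool.Agent.Work.BCF.frostman l hl0 hl1 μ h x r hr hr1

end Pool.Agent.Results.MP_bc8e1e_an.FrostmanNearOne
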