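import Pool.Agent.Work.MP_bc8e1e_an.D.VFin

set_option autoImplicit false

open MeasureTheory Polynomial

namespace Pool.Agent.Results.MP_bc8e1e_an.LehmerDichotomy

/-- There are `A₀ ≥ 1`, `c > 0` and `l0 < 1` such that for EVERY `l ∈ (l0,1)` and every `A` with
`A₀ ≤ A ≤ 1/(1-l)`, the Bernoulli convolution `μ` with parameter `l` is absolutely continuous, or
else for every `D₀` there are `D ≥ D₀`, a nonzero integer polynomial `f` of degree at most `D` and
Mahler measure at most `1 + A(1-l)`, and a complex root `η` of `f` with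
`|l - η| ≤ exp (-(D * exp (c * max (√A) (min A (log (1/(1-l)))))))`. -/
theorem result :
    ∃ A₀ c : ℝ, 1 ≤ A₀ ∧ 0 < c ∧ ∃ l0 : ℝ, l0 < 1 ∧
      ∀ l : ℝ, l0 < l → l < 1 → ∀ A : ℝ, A₀ ≤ A → A * (1 - l) ≤ 1 →
        ∀ μ : Measure ℝ, IsProbabilityMeasure μ →
          μ = (1/2 : ENNReal) • μ.map (fun x : ℝ => l * x + 1)
              + (1/2 : ENNReal) • μ.map (fun x : ℝ => l * x - 1) →
          μ ≪ (volume : Measure ℝ) ∨
          ∀ D₀ : ℕ, ∃ D : ℕ, D₀ ≤ D ∧ ∃ f : ℤ[X], f ≠ 0 ∧ f.natDegree ≤ D ∧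
            (f.map (Int.castRingHom ℂ)).mahlerMeasure ≤ 1 + A * (1 - l) ∧
            ∃ η : ℂ, (f.map (Int.castRingHom ℂ)).eval η = 0 ∧
              ‖(l : ℂ) - η‖ ≤ Real.exp (-(D * Real.exp
                (c * max (√A) (min A (Real.log (1 / (1 - l))))))) :=
  Pool.Agent.BCD.dichotomy_V

end Pool.Agent.Results.MP_bc8e1e_an.LehmerDichotomy
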